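import Pool.Agent.Lib.MP_d47d4c_co.TC.GenMain
import Pool.Agent.Lib.MP_d47d4c_co.TC.AreaBound

/-!
# Triangle colourings of the plane without critical unit configurations need eight colours

Two equally coloured triangles of a triangle colouring have all mutual distances `≤ 1` or all mutual distances `≥ 1`.
A seven-colouring with fewer than cubically many triangles has a vertex of degree at least four that is the end of a unit
segment or the corner of a unit equilateral triangle at which a maximal distance exactly one occurs, and also such a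
configuration with a minimal distance exactly one.
-/

set_option autoImplicit false

namespace Pool.Agent.Results.MP_d47d4c_co.GenericTriangles

/-- the closed triangle with corners `p 0`, `p 1`, `p 2` -/
def tri (p : Fin 3 → ℂ) : Set ℂ := convexHull ℝ (Set.range p)

/-- A triangle colouring of the plane with colours in `S`: the plane is covered by nondegenerate closed triangles with
disjoint interiors, every disc meets only finitely many of them, points at distance one have different colours, the colour
is constant (equal to `col i`) on the interior of the triangle `i`, and triangles with a common point have different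
colours. Corners of one triangle may lie on sides of another; points on sides and corners have arbitrary colours. -/
structure TriangleColouring (ι S : Type) where
  p : ι → Fin 3 → ℂ
  indep : ∀ i, AffineIndependent ℝ (p i)
  cover : ∀ x : ℂ, ∃ i, x ∈ tri (p i)
  disj : ∀ i j, i ≠ j → Disjoint (interior (tri (p i))) (interior (tri (p j)))
  locfin : ∀ R : ℝ, {i | (tri (p i) ∩ Metric.closedBall (0 : ℂ) R).Nonempty}.Finite
  colour : ℂ → S
  unit : ∀ x y, dist x y = 1 → colour x ≠ colour y
  col : ι → S
  const : ∀ i, ∀ x ∈ interior (tri (p i)), colour x = col i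
  touch : ∀ i j, i ≠ j → (tri (p i) ∩ tri (p j)).Nonempty → col i ≠ col j

variable {ι S : Type}

/-- the number of triangles meeting the closed disc of radius `R` around the origin -/
noncomputable def count (C : TriangleColouring ι S) (R : ℝ) : ℕ :=
  {i | (tri (C.p i) ∩ Metric.closedBall (0 : ℂ) R).Nonempty}.ncard

/-- the number of triangles containing the point `w` -/
noncomputable def degree (C : TriangleColouring ι S) (w : ℂ) : ℕ := {i | w ∈ tri (C.p i)}.ncard

/-- Two (possibly equal) triangles of the same colour with all mutual distances at most one contain points `x`, `y` with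
`|x - y| = |y - w| = 1` such that `x = w` or `|x - w| = 1`. -/
def MaxCritical (C : TriangleColouring ι S) (w : ℂ) : Prop :=
  ∃ i j, C.col i = C.col j ∧ (∀ x ∈ tri (C.p i), ∀ y ∈ tri (C.p j), dist x y ≤ 1) ∧
    ∃ x ∈ tri (C.p i), ∃ y ∈ tri (C.p j), dist x y = 1 ∧ dist y w = 1 ∧ (x = w ∨ dist x w = 1)

/-- The same with all mutual distances at least one. -/
def MinCritical (C : TriangleColouring ι S) (w : ℂ) : Prop :=
  ∃ i j, C.col i = C.col j ∧ (∀ x ∈ tri (C.p i), ∀ y ∈ tri (C.p j), 1 ≤ dist x y) ∧
    ∃ x ∈ tri (C.p i), ∃ y ∈ tri (C.p j), dist x y = 1 ∧ dist y w = 1 ∧ (x = w ∨ dist x w = 1)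

/-- If no point in four or more triangles is both max-critical and min-critical, and the number of triangles meeting the
disc of radius `R` is not at least `c R ^ 3` for all `R ≥ 1`, whatever the constant `c > 0`, then the triangles need eight
colours. -/
theorem result [Finite S] (C : TriangleColouring ι S)
    (hcrit : ∀ w, 4 ≤ degree C w → ¬ (MaxCritical C w ∧ MinCritical C w))
    (hgrow : ∀ c : ℝ, 0 < c → ∃ R : ℝ, 1 ≤ R ∧ (count C R : ℝ) < c * R ^ 3) :
    8 ≤ (Set.range C.col).ncard := by
  classical
  by_contra hcon
  push Not at hcon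
  set T : Pool.TC.TriTiling ι := ⟨C.p, C.indep, C.cover, C.disj, C.locfin⟩ with hT
  have : Finite (Set.range C.col) := Set.toFinite _
  have : Fintype (Set.range C.col) := Fintype.ofFinite _
  have hcard : (Set.range C.col).ncard = Fintype.card (Set.range C.col) := by
    rw [Set.ncard_eq_toFinset_card', Set.toFinset_card]
  set e := Fintype.equivFin (Set.range C.col) with he
  set c : ι → Fin (Fintype.card (Set.range C.col)) := fun i => e ⟨C.col i, i, rfl⟩ with hc
  have hcc : ∀ i j, c i = c j → C.col i = C.col j := by
    intro i j h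
    have := e.injective h
    exact congrArg Subtype.val this
  have hk : Fintype.card (Set.range C.col) ≤ 7 := by omega
  obtain ⟨c0, hc0, hg⟩ := T.generic_main hk (col := c)
    (fun i j hij hne h => C.touch i j hij hne (hcc i j h))
    (fun i j hij x hx y hy hxy => C.unit x y hxy (by rw [C.const i x hx, C.const j y hy]; exact hcc i j hij))
    (fun w hw => by
      have hw' : ¬ (MaxCritical C w ∧ MinCritical C w) := hcrit w hw
      by_cases hM : MaxCritical C w
      · right
        rintro i j hij hd ⟨x, hx, y, hy, h1, h2, h3⟩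
        exact hw' ⟨hM, i, j, hcc i j hij, hd, x, hx, y, hy, h1, h2, h3⟩
      · left
        rintro i j hij hd ⟨x, hx, y, hy, h1, h2, h3⟩
        exact hM ⟨i, j, hcc i j hij, hd, x, hx, y, hy, h1, h2, h3⟩)
  obtain ⟨R, hR, hlt⟩ := hgrow c0 hc0
  have h1 := hg R hR
  have h2 : (T.count R : ℝ) = (count C R : ℝ) := rfl
  rw [h2] at h1
  linarith

/-- Corollary: no two corners of triangles at distance exactly one. -/
theorem no_unit_corners [Finite S] (C : TriangleColouring ι S)
    (hno : ∀ i m j m', dist (C.p i m) (C.p j m') ≠ 1)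
    (hgrow : ∀ c : ℝ, 0 < c → ∃ R : ℝ, 1 ≤ R ∧ (count C R : ℝ) < c * R ^ 3) :
    8 ≤ (Set.range C.col).ncard := by
  refine result C (fun w _ h => ?_) hgrow
  obtain ⟨⟨i, j, _, hd, x, hx, y, hy, hxy, _, _⟩, _⟩ := h
  obtain ⟨m', hm'⟩ := Pool.TC.corner_of_dist_max (p := C.p j) (z := y) (x := x) (r := 1) hy (by rw [dist_comm]; exact hxy)
    (fun z hz => by rw [dist_comm]; exact hd x hx z hz)
  obtain ⟨m, hm⟩ := Pool.TC.corner_of_dist_max (p := C.p i) (z := x) (x := y) (r := 1) hx hxy (fun z hz => hd z hz y hy)
  exact hno i m j m' (by rw [hm, hm']; exact hxy)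

/-- Corollary: areas bounded below. -/
theorem areas_bounded_below [Finite S] (C : TriangleColouring ι S)
    (hcrit : ∀ w, 4 ≤ degree C w → ¬ (MaxCritical C w ∧ MinCritical C w))
    {a : ℝ} (ha : 0 < a) (harea : ∀ i, a ≤ (MeasureTheory.volume (tri (C.p i))).toReal) :
    8 ≤ (Set.range C.col).ncard := by
  refine result C hcrit (fun c hc => ?_)
  set T : Pool.TC.TriTiling ι := ⟨C.p, C.indep, C.cover, C.disj, C.locfin⟩ with hT
  have hd : ∀ i, ∀ x ∈ T.K i, ∀ y ∈ T.K i, dist x y ≤ 1 := by
    intro i x hx y hy
    by_contra hcon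
    push Not at hcon
    obtain ⟨u, hu, v, hv, huv⟩ := Pool.TC.exists_interior_dist_eq (T.K_convex i) (T.K_convex i)
      (T.K_closure_interior i).ge (T.K_closure_interior i).ge (ρ := 1)
      ⟨x, hx, x, hx, by rw [dist_self]; exact one_pos⟩ ⟨x, hx, y, hy, hcon⟩
    exact C.unit u v huv (by rw [C.const i u hu, C.const i v hv])
  set R : ℝ := 9 * Real.pi / (a * c) + 1 with hRdef
  have hpi := Real.pi_pos
  have hR : 1 ≤ R := by
    rw [hRdef]
    have : 0 < 9 * Real.pi / (a * c) := by positivity
    linarith
  refine ⟨R, hR, ?_⟩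
  have h1 := T.count_le_of_area hd harea (R := R) (by linarith)
  have h2 : (T.count R : ℝ) = (count C R : ℝ) := rfl
  rw [h2] at h1
  have h3 : Real.pi * (R + 2) ^ 2 ≤ 9 * Real.pi * R ^ 2 := by
    have : (R + 2) ^ 2 ≤ (3 * R) ^ 2 := by
      apply pow_le_pow_left₀ (by linarith)
      linarith
    nlinarith
  have h4 : 9 * Real.pi * R ^ 2 < (a * c) * R ^ 3 := by
    have h5 : (a * c) * R = 9 * Real.pi + a * c := by rw [hRdef]; field_simp
    have h6 : (a * c) * R ^ 3 = ((a * c) * R) * R ^ 2 := by ring
    rw [h6, h5]
    have : 0 < a * c * R ^ 2 := by positivity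
    nlinarith
  have h7 : (count C R : ℝ) * a < (c * R ^ 3) * a := by
    calc (count C R : ℝ) * a ≤ 9 * Real.pi * R ^ 2 := h1.trans h3
      _ < (a * c) * R ^ 3 := h4
      _ = (c * R ^ 3) * a := by ring
  exact lt_of_mul_lt_mul_right h7 ha.le

end Pool.Agent.Results.MP_d47d4c_co.GenericTriangles
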