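import Pool.Agent.Lib.MP_d47d4c_co.TC.SepMain

/-!
# Triangle colourings of the plane whose equally coloured triangles are far apart need eight colours

In a triangle colouring of the plane (no two points at distance one have the same colour) two equally coloured triangles
either have all mutual distances `≥ 1` or all mutual distances `≤ 1`. If the second alternative occurs only for a triangle
and itself, then at least eight colours are needed.
-/

set_option autoImplicit false

namespace Pool.Agent.Results.MP_d47d4c_co.SeparatedTriangles

/-- the closed triangle with corners `p 0`, `p 1`, `p 2` -/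
def tri (p : Fin 3 → ℂ) : Set ℂ := convexHull ℝ (Set.range p)

/-- A triangle colouring of the plane with colours in `S`: the plane is covered by nondegenerate closed triangles with
disjoint interiors, every disc meets only finitely many of them, points at distance one have different colours, the colour
is constant (equal to `col i`) on the interior of the triangle `i`, and triangles with a common point have different
colours. Corners of one triangle may lie on sides of another; points on sides and corners have arbitrary colours. -/
structure TriangleColouring (ι S : Type) where
  p : ι → Fin 3 → ℂ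
  indep : ∀ i, AffineIndependent ℝ (p i)
  cover : ∀ x : ℂ, ∃ i, x ∈ tri (p i)
  disj : ∀ i j, i ≠ j → Disjoint (interior (tri (p i))) (interior (tri (p j)))
  locfin : ∀ R : ℝ, {i | (tri (p i) ∩ Metric.closedBall (0 : ℂ) R).Nonempty}.Finite
  colour : ℂ → S
  unit : ∀ x y, dist x y = 1 → colour x ≠ colour y
  col : ι → S
  const : ∀ i, ∀ x ∈ interior (tri (p i)), colour x = col i
  touch : ∀ i j, i ≠ j → (tri (p i) ∩ tri (p j)).Nonempty → col i ≠ col j

/-- If distinct triangles of the same colour always have distance at least one, then the triangles need eight colours. -/
theorem result {ι S : Type} [Finite S] (C : TriangleColouring ι S)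
    (hsep : ∀ i j, i ≠ j → C.col i = C.col j → ∀ x ∈ tri (C.p i), ∀ y ∈ tri (C.p j), 1 ≤ dist x y) :
    8 ≤ (Set.range C.col).ncard := by
  classical
  set T : Pool.TC.TriTiling ι := ⟨C.p, C.indep, C.cover, C.disj, C.locfin⟩ with hT
  have hfin : (Set.range C.col).Finite := Set.toFinite _
  have : Finite (Set.range C.col) := hfin
  have : Fintype (Set.range C.col) := Fintype.ofFinite _
  have hcard : (Set.range C.col).ncard = Fintype.card (Set.range C.col) := by
    rw [Set.ncard_eq_toFinset_card', Set.toFinset_card]
  set e := Fintype.equivFin (Set.range C.col) with he
  set c : ι → Fin (Fintype.card (Set.range C.col)) := fun i => e ⟨C.col i, i, rfl⟩ with hc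
  have hcc : ∀ i j, c i = c j → C.col i = C.col j := by
    intro i j h
    have := e.injective h
    exact congrArg Subtype.val this
  have hd : ∀ i, ∀ x ∈ T.K i, ∀ y ∈ T.K i, dist x y ≤ 1 := by
    refine T.diam_le_one (col := c) ?_
    intro i j hij x hx y hy hxy
    refine C.unit x y hxy ?_
    rw [C.const i x hx, C.const j y hy]
    exact hcc i j hij
  rw [hcard]
  exact T.separated_main (col := c) (fun i j hij hcol x hx y hy => hsep i j hij (hcc i j hcol) x hx y hy) hd

end Pool.Agent.Results.MP_d47d4c_co.SeparatedTriangles
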